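import Pool.Agent.Helper1.TE.Goals

/-!
Project TE, packet CSD: the seed is good.
-/

namespace Pool.Agent.Helper87.TE

open Pool.Agent.Helper1.TE
open Pool.Agent.Helper65.LinSpace (dig tab nrec nrec_succ ifz eq01 le01 lt01 capPow)
open Finset

theorem good01_ne (b W a : ℕ) (hW : 2 ^ b ≤ W + 1) :
    good01 b W a ≠ 0 ↔ ∀ p, 0 < p → p < 2 ^ b → b ≤ 4 * wt b a p := by
  have hc : capPow 2 b W = 2 ^ b := by
    unfold capPow
    exact min_eq_left hW
  unfold good01
  rw [hc]
  have h1 : (∑ p ∈ range (2 ^ b), lt01 0 p * lt01 (4 * wt b a p) b) = 0 ↔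
      ∀ p, 0 < p → p < 2 ^ b → b ≤ 4 * wt b a p := by
    rw [Finset.sum_eq_zero_iff]
    constructor
    · intro h p hp hp2
      have := h p (mem_range.2 hp2)
      unfold lt01 at this
      rw [if_pos hp, one_mul] at this
      by_contra hlt
      rw [if_pos (not_le.1 hlt)] at this
      omega
    · intro h p hp
      rcases Nat.eq_zero_or_pos p with h0 | h0
      · subst h0
        simp [lt01]
      · have := h p h0 (mem_range.1 hp)
        unfold lt01
        rw [if_neg (not_lt.2 this), mul_zero]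
  rw [← h1]
  unfold ifz
  split_ifs with h
  · simp [h]
  · simp [h]

theorem rec_good (g : ℕ → ℕ) (n : ℕ) (h : ∃ i < n, g i ≠ 0) :
    nrec 0 (fun i r => ifz (g i) r i) n < n ∧ g (nrec 0 (fun i r => ifz (g i) r i) n) ≠ 0 := by
  induction n with
  | zero =>
    obtain ⟨i, hi, _⟩ := h
    omega
  | succ n ih =>
    rw [nrec_succ]
    by_cases hg : g n = 0
    · have h' : ∃ i < n, g i ≠ 0 := by
        obtain ⟨i, hi, hgi⟩ := h
        refine ⟨i, ?_, hgi⟩
        rcases Nat.lt_succ_iff_lt_or_eq.1 hi with h1 | h1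
        · exact h1
        · subst h1
          exact absurd hg hgi
      obtain ⟨h1, h2⟩ := ih h'
      have e : ifz (g n) (nrec 0 (fun i r => ifz (g i) r i) n) n
          = nrec 0 (fun i r => ifz (g i) r i) n := by
        unfold ifz
        rw [if_pos hg]
      rw [e]
      exact ⟨by omega, h2⟩
    · have e : ifz (g n) (nrec 0 (fun i r => ifz (g i) r i) n) n = n := by
        unfold ifz
        rw [if_neg hg]
      rw [e]
      exact ⟨by omega, hg⟩

theorem gCSD : GoalCSD := by
  intro hCE b W hb hW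
  obtain ⟨a, ha1, ha2⟩ := hCE b hb
  have hpow : 2 ^ b ≤ 2 ^ (3 * b) := Nat.pow_le_pow_right (by norm_num) (by omega)
  have hW1 : 2 ^ b ≤ W + 1 := by omega
  have hc : capPow 2 (3 * b) W = 2 ^ (3 * b) := by
    unfold capPow
    exact min_eq_left (by omega)
  have h := rec_good (good01 b W) (2 ^ (3 * b)) ⟨a, ha1, (good01_ne b W a hW1).2 ha2⟩
  unfold seed
  rw [hc]
  exact ⟨h.1, (good01_ne b W _ hW1).1 h.2⟩

end Pool.Agent.Helper87.TE
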